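import Pool.Agent.L0h94.RZ.DefsF

/-!
# Project RZ, part CRV: the curves of a good triple are in the family
-/

set_option autoImplicit false

namespace Pool.Agent.L0h94.RZ

open Finset Pool.Agent.W262.RK Pool.Agent.W307.RT
open Pool.Agent.W29.RT (abs_le_cube abs_le_sq)

lemma crv_gen {m n H : ℕ} (hm : 1 ≤ m) (hn : 1 ≤ n) (hc : Nat.Coprime m n)
    (h3 : (2 * m + n) % 3 = 0) (hH : (m + n) ^ 6 ≤ H) :
    ∃ c ∈ Cv 2 H, Pool.Agent.L0h94.FT.Rl c (m, n) := by
  obtain ⟨k, hk⟩ := Nat.dvd_of_mod_eq_zero h3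
  have hkI : (2 : ℤ) * m + n = 3 * k := by exact_mod_cast hk
  have hmI : (1 : ℤ) ≤ m := by exact_mod_cast hm
  have hnI : (1 : ℤ) ≤ n := by exact_mod_cast hn
  have hHI : ((m : ℤ) + n) ^ 6 ≤ H := by exact_mod_cast hH
  have hcI : IsCoprime (m : ℤ) (n : ℤ) := Nat.isCoprime_iff_coprime.2 hc
  set e1 : ℤ := -(k : ℤ) with he1
  set e2 : ℤ := e1 + m with he2
  have hs : e1 + e2 + (e2 + n) = 0 := by rw [he2, he1]; linarith
  have he12 : IsCoprime e1 e2 := by
    obtain ⟨x, y, hxy⟩ := hcI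
    refine ⟨-x - y, x - 2 * y, ?_⟩
    have h4 : (m : ℤ) = e2 - e1 := by rw [he2]; ring
    have h5 : (n : ℤ) = -e1 - 2 * e2 := by linarith
    rw [← hxy, h4, h5]
    ring
  have hmd : (m : ℤ) = e2 - e1 := by rw [he2]; ring
  have hnd : (n : ℤ) = -e1 - 2 * e2 := by linarith
  clear_value e1 e2
  set A : ℤ := -(e1 ^ 2 + e1 * e2 + e2 ^ 2) with hA
  set B : ℤ := e1 * e2 * (e1 + e2) with hB
  have hAabs : |A| = e1 ^ 2 + e1 * e2 + e2 ^ 2 := by
    rw [hA, abs_neg, abs_of_nonneg]
    nlinarith [sq_nonneg (e1 + e2), sq_nonneg e1, sq_nonneg e2]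
  have h3A : 3 * |A| ≤ ((m : ℤ) + n) ^ 2 := by
    have e : 3 * |A| = (m : ℤ) ^ 2 + m * n + (n : ℤ) ^ 2 := by
      rw [hAabs, hmd, hnd]; ring
    rw [e]
    nlinarith
  have hA3 : 4 * |A| ^ 3 ≤ H := by
    have h6 : (3 * |A|) ^ 3 ≤ (((m : ℤ) + n) ^ 2) ^ 3 :=
      pow_le_pow_left₀ (by positivity) h3A 3
    have h7 : (((m : ℤ) + n) ^ 2) ^ 3 = ((m : ℤ) + n) ^ 6 := by ring
    have h8 : (3 * |A|) ^ 3 = 27 * |A| ^ 3 := by ring
    rw [h7, h8] at h6
    have h9 : 0 ≤ |A| ^ 3 := by positivity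
    linarith
  have hdisc : 4 * A ^ 3 + 27 * B ^ 2 =
      -(((m : ℤ)) ^ 2 * ((m : ℤ) + n) ^ 2 * (n : ℤ) ^ 2) := by
    rw [hA, hB, hmd, hnd]
    ring
  have hDpos : 0 < ((m : ℤ)) ^ 2 * ((m : ℤ) + n) ^ 2 * (n : ℤ) ^ 2 := by positivity
  have hA3' : |A| ^ 3 = -A ^ 3 := by
    have : |A| = -A := by rw [hAabs, hA]; ring
    rw [this]; ring
  have hB2 : 27 * B ^ 2 ≤ H := by
    have : 27 * B ^ 2 ≤ 4 * |A| ^ 3 := by
      rw [hA3']
      linarith
    linarith
  refine ⟨(A, B), ?_, ?_⟩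
  · unfold Cv
    simp only [mem_filter, mem_product, mem_Icc]
    have a1 := abs_le_cube A
    have a2 := abs_le_sq B
    have a3 := neg_abs_le A
    have a4 := le_abs_self A
    have a5 := neg_abs_le B
    have a6 := le_abs_self B
    have a7 : 0 ≤ |A| ^ 3 := by positivity
    have a8 : 0 ≤ B ^ 2 := by positivity
    refine ⟨⟨⟨by linarith, by linarith⟩, ⟨by linarith, by linarith⟩⟩, ?_, hA3, hB2, ?_, ?_⟩
    · rw [hdisc]
      intro h
      linarith
    · intro p hp hh
      exact Pool.Agent.L0h94.FT.minim2 he12 hp hh.1 hh.2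
    · apply Pool.Agent.L0h94.FT.hasT2 (a := (e1 : ℚ)) (b := (e2 : ℚ))
      · rw [hA]; push_cast; ring
      · rw [hB]; push_cast; ring
      · intro h
        have h' : e1 = e2 := by exact_mod_cast h
        rw [h', sub_self] at hmd
        omega
      · intro h
        have h' : 2 * e1 + e2 = 0 := by exact_mod_cast h
        omega
      · intro h
        have h' : e1 + 2 * e2 = 0 := by exact_mod_cast h
        omega
  · refine ⟨e1, hm, hn, ?_, ?_, ?_⟩
    · simp only
      linarith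
    · simp only
      rw [hA, hmd, hnd]
      ring
    · simp only
      rw [hB, hmd, hnd]
      ring

/-- (22) -/
theorem crv : S_CRV := by
  intro o u b w H hG hH
  have hb := hG.hb
  have hu := hG.hu
  have hw := hG.hw
  have hcop : Nat.Coprime u w := by
    have h1 : Squarefree (u * b * w) := hG.sq
    have h2 : u * b * w = (u * w) * b := by ring
    rw [h2] at h1
    exact Nat.coprime_of_squarefree_mul (Squarefree.of_mul_left h1)
  have hcop4 : Nat.Coprime u (4 * w) := by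
    refine Nat.Coprime.mul_right ?_ hcop
    have : Nat.Coprime u 2 := by
      rw [Nat.coprime_two_right]
      exact Nat.odd_iff.2 (by omega)
    exact (Nat.Coprime.pow_right 2 this)
  cases o with
  | true =>
    have h1 : (mo true u w).toNat = u := by simp [mo]
    have h2 : ((b : ℤ) - mo true u w).toNat = 4 * w := by
      simp only [mo, if_true]
      omega
    rw [h1, h2]
    refine crv_gen (by omega) (by omega) hcop4 (by omega) ?_
    rw [← hb]
    exact hH
  | false =>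
    have h0 : mo false u w = 4 * (w : ℤ) := by simp [mo]
    have h1 : (mo false u w).toNat = 4 * w := by
      rw [h0]
      omega
    have h2 : ((b : ℤ) - mo false u w).toNat = u := by
      rw [h0]
      omega
    rw [h1, h2]
    refine crv_gen (by omega) (by omega) hcop4.symm (by omega) ?_
    rw [add_comm, ← hb]
    exact hH

end Pool.Agent.L0h94.RZ
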